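import Mathlib
import Pool.Agent.T2H42.Ver.Bridge

/-!
# Veronese embeddings of `ℙ³` with characteristic-dependent syzygies

For every `r ≥ 3` the Betti number `β_{14,15}` of the 4-uple embedding of `ℙ^r` is larger over the
field with two elements than over `ℚ`. So the least `r` for which some Veronese embedding of `ℙ^r`
has a characteristic-dependent Betti table is at most three, and Veronese syzygies can have
`2`-torsion.

The Koszul complex of the 4-uple embedding is defined over `ℤ`. In multidegree `(22, 20, 14, 4)` there
is an explicit chain `w` (a sum of 835 sets of 14 monomials) whose boundary is divisible by `2`, and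
an explicit cochain `φ` (a sum of 100 sets of 13 monomials) whose coboundary is divisible by `2`,
with `φ(∂ w) = 6`, which is not divisible by `4`. So the differential has an elementary divisor that
is twice an odd number, and its rank over `ℤ/2` is smaller than its rank over `ℚ`. The rank of the
next differential does not increase on passing to `ℤ/2`.
-/

set_option autoImplicit false

open Pool.Agent.T2H42.Ver

namespace Pool.Agent.Results.MP_b64830_ag.TwoTorsionThreeSpace

/-- For some `d ≥ 1` the Betti table of the `d`-uple embedding of `ℙ^r` depends on the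
characteristic: for two fields of different characteristics some graded Betti numbers differ. -/
def CharDependent (r : ℕ) : Prop :=
  ∃ d : ℕ, 1 ≤ d ∧ ∃ (k k' : Type) (_ : Field k) (_ : Field k'), ringChar k ≠ ringChar k' ∧
    ∃ i j : ℕ, betti k r d i j ≠ betti k' r d i j

/-- `r_min`, the least `r ≥ 1` for which some Veronese embedding of `ℙ^r` has a Betti table that
depends on the characteristic. -/
noncomputable def rMin : ℕ := sInf {r : ℕ | 1 ≤ r ∧ CharDependent r}

/-- For every `r ≥ 3` the graded Betti number `β_{14,15}` of the 4-uple embedding of `ℙ^r` is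
strictly larger over the field with two elements than over `ℚ`. In particular `r_min` is attained
and at most `3`. -/
theorem result : (∀ r : ℕ, 3 ≤ r → betti ℚ r 4 14 15 < betti (ZMod 2) r 4 14 15) ∧
    (1 ≤ rMin ∧ CharDependent rMin) ∧ rMin ≤ 3 := by
  have h1 : ∀ r : ℕ, 3 ≤ r → betti ℚ r 4 14 15 < betti (ZMod 2) r 4 14 15 :=
    fun r hr => betti_two hr
  have h2 : 3 ∈ {r : ℕ | 1 ≤ r ∧ CharDependent r} := by
    refine ⟨by norm_num, 4, by norm_num, ℚ, ZMod 2, inferInstance, inferInstance, ?_, 14, 15,
      (h1 3 le_rfl).ne⟩
    rw [ringChar.eq_zero, ZMod.ringChar_zmod_n]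
    norm_num
  exact ⟨h1, Nat.sInf_mem ⟨3, h2⟩, Nat.sInf_le h2⟩

end Pool.Agent.Results.MP_b64830_ag.TwoTorsionThreeSpace
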